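import Mathlib

namespace Pool.Agent.H.MP_e19c20_an
open Set Filter Topology Complex

variable {K : Type} [TopologicalSpace K] {B : Subalgebra ℂ C(K, ℂ)}

def Sq (B : Subalgebra ℂ C(K, ℂ)) : Prop := ∀ f ∈ B, ∀ ε > 0, ∃ r ∈ B, ∀ x, ‖r x ^ 2 - f x‖ ≤ ε

lemma sgn {E : Set K} (hE : IsPreconnected E) {g : K → ℝ} (hg : Continuous g)
    (h : ∀ x ∈ E, g x ≠ 0) {x y : K} (hx : x ∈ E) (hy : y ∈ E) (h0 : 0 < g x) : 0 < g y := by
  by_contra! hc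
  obtain ⟨z, hz, e⟩ := hE.intermediate_value hy hx hg.continuousOn ⟨hc, h0.le⟩
  exact h z hz e

lemma re_half {z a : ℂ} (ha : 1 ≤ a.re) (h : ‖z ^ 2 - a‖ ≤ 3 / 4) : 1 / 2 ≤ |z.re| := by
  have := (abs_le.1 ((abs_re_le_norm _).trans h)).1
  rw [sub_re, sq, mul_re] at this
  refine le_of_sq_le_sq ?_ (abs_nonneg _)
  rw [sq_abs]
  nlinarith [mul_self_nonneg z.im]

lemma near {z : ℂ} {b : ℝ} (h0 : 0 < z.re) (h : ‖z ^ 2 - 1‖ ≤ b) (hb : b ≤ 3 / 4) :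
    ‖z - 1‖ ≤ 2 / 3 * b := by
  have h1 := re_half (by simp) (h.trans hb)
  rw [abs_of_pos h0] at h1
  have h2 : 3 / 2 ≤ ‖z + 1‖ := le_trans (by simp; linarith) (re_le_norm _)
  rw [show z ^ 2 - 1 = (z - 1) * (z + 1) by ring, norm_mul] at h
  nlinarith [norm_nonneg (z - 1)]

def St (B : Subalgebra ℂ C(K, ℂ)) (E F : Set K) (m a : ℝ) : Prop := ∀ δ > 0, ∃ G ∈ B,
  (∀ x, ‖G x‖ ≤ 1 + m) ∧ (∀ x ∈ E, ‖G x - 1‖ ≤ a) ∧ ∀ x ∈ F, ‖G x‖ ≤ δ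

lemma St.step (hB : Sq B) {E F : Set K} (hE : IsPreconnected E) {m a : ℝ} (hm : 0 < m)
    (ha : 0 < a) (ha' : a ≤ 1 / 2) (h : St B E F m a) : St B E F (3 / 4 * m) (3 / 4 * a) := by
  intro δ hδ
  obtain ⟨G, hG, g1, g2, g3⟩ := h (δ ^ 2 / 2) (by positivity)
  obtain ⟨r, hr, e⟩ := hB G hG (min (min (m / 2) (a / 8)) (δ ^ 2 / 2)) (by positivity)
  simp only [le_min_iff] at e
  have t : ∀ x c, ‖r x ^ 2 - c‖ ≤ ‖r x ^ 2 - G x‖ + ‖G x - c‖ := fun x c => norm_sub_le_norm_sub_add_norm_sub _ _ _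
  have e1 : ∀ x ∈ E, ‖r x ^ 2 - 1‖ ≤ 9 / 8 * a := fun x hx => by
    linarith [t x 1, (e x).1.2, g2 x hx]
  have n : ∀ x ∈ E, (r x).re ≠ 0 := fun x hx h0 => by
    have := re_half (z := r x) (a := 1) (by simp) (by linarith [e1 x hx])
    rw [h0] at this; norm_num at this
  obtain ⟨s, hs, es, ps⟩ : ∃ s ∈ B, (∀ x, s x ^ 2 = r x ^ 2) ∧ ∀ x ∈ E, 0 < (s x).re := by
    by_cases c : ∃ x ∈ E, 0 < (r x).re
    · obtain ⟨x, hx, c⟩ := c
      exact ⟨r, hr, fun _ => rfl, fun y hy => sgn hE (by fun_prop) n hx hy c⟩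
    · push Not at c
      exact ⟨-r, neg_mem hr, fun x => by simp, fun x hx => by
        simpa using lt_of_le_of_ne (c x hx) (n x hx)⟩
  have q : ∀ x, ‖s x‖ ^ 2 ≤ ‖r x ^ 2 - G x‖ + ‖G x‖ := fun x => by
    rw [← norm_pow, es]; simpa using t x 0
  refine ⟨s, hs, fun x => le_of_sq_le_sq ?_ (by positivity), fun x hx => ?_,
    fun x hx => le_of_sq_le_sq ?_ hδ.le⟩
  · nlinarith [q x, (e x).1.1, g1 x]
  · linarith [near (ps x hx) (es x ▸ e1 x hx) (by linarith)]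
  · linarith [q x, (e x).2, g3 x hx]

def Good (B : Subalgebra ℂ C(K, ℂ)) (E F : Set K) : Prop := ∀ η > 0, ∃ G ∈ B,
  (∀ x, ‖G x‖ ≤ 1 + η) ∧ (∀ x ∈ E, ‖G x - 1‖ ≤ η) ∧ ∀ x ∈ F, ‖G x‖ ≤ η

lemma St.good (hB : Sq B) {E F : Set K} (hE : IsPreconnected E) {m : ℝ} (hm : 0 < m)
    (h : St B E F m (1 / 2)) : Good B E F := by
  have k : ∀ n : ℕ, St B E F ((3 / 4) ^ n * m) ((3 / 4) ^ n * (1 / 2)) := fun n => by
    induction n with
    | zero => simpa using h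
    | succ n ih =>
      have := pow_le_one₀ (n := n) (by norm_num : (0 : ℝ) ≤ 3 / 4) (by norm_num)
      simpa only [pow_succ', mul_assoc] using ih.step hB hE (by positivity) (by positivity)
        (by linarith)
  intro η hη
  obtain ⟨n, hn⟩ := exists_pow_lt_of_lt_one (show 0 < η / (m + 1) by positivity)
    (by norm_num : (3 / 4 : ℝ) < 1)
  rw [lt_div_iff₀ (by positivity)] at hn
  have : (0 : ℝ) < (3 / 4) ^ n := by positivity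
  obtain ⟨G, hG, g1, g2, g3⟩ := k n η hη
  exact ⟨G, hG, fun x => by nlinarith [g1 x], fun x hx => by nlinarith [g2 x hx], g3⟩

lemma dich {r s : ℂ} {ε : ℝ} (h : ‖r ^ 2 - s ^ 2‖ ≤ 2 * ε) (hs : 1 / 2 ≤ ‖s‖)
    (h0 : 0 ≤ (r * (starRingEnd ℂ) s).re) : ‖r - s‖ ≤ 4 * ε := by
  have h1 : ‖s‖ ≤ ‖r + s‖ := by
    refine le_of_sq_le_sq ?_ (norm_nonneg _)
    rw [← normSq_eq_norm_sq, ← normSq_eq_norm_sq, normSq_add]
    linarith [normSq_nonneg r]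
  rw [show r ^ 2 - s ^ 2 = (r - s) * (r + s) by ring, norm_mul] at h
  nlinarith [norm_nonneg (r - s)]

def P (B : Subalgebra ℂ C(K, ℂ)) (φ : C(K, ℂ)) (p q : K) (s : ℝ) : Set ℂ := {ζ | ‖ζ‖ = 1 ∧ ∀ δ > 0,
  ∃ r ∈ B, (∀ x, ‖r x ^ 2 - (φ x - ζ ^ 2)‖ ≤ δ) ∧ 0 < s * (r p).re ∧
    0 < (r q * -I * (starRingEnd ℂ) ζ).re}

lemma wq {r ζ : ℂ} (h : ‖ζ‖ = 1) :
    ‖(r * -I * (starRingEnd ℂ) ζ) ^ 2 - 1‖ = ‖r ^ 2 - (0 - ζ ^ 2)‖ := by
  have e : ζ * (starRingEnd ℂ) ζ = 1 := by rw [mul_conj, normSq_eq_norm_sq, h]; simp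
  rw [show (r * -I * (starRingEnd ℂ) ζ) ^ 2 - 1 = -((starRingEnd ℂ) ζ) ^ 2 * (r ^ 2 - (0 - ζ ^ 2)) by
    linear_combination (r * (starRingEnd ℂ) ζ) ^ 2 * I_sq + (ζ * (starRingEnd ℂ) ζ + 1) * e]
  simp [h]

lemma P_closed (φ : C(K, ℂ)) {p q : K} (hq : φ q = 0) (s : ℝ) : IsClosed (P B φ p q s) := by
  refine isClosed_of_closure_subset fun ζ h => ?_
  have n : ‖ζ‖ = 1 := closure_minimal (t := {ζ : ℂ | ‖ζ‖ = 1}) (fun _ h => h.1)
    (isClosed_eq continuous_norm continuous_const) h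
  refine ⟨n, fun δ hδ => ?_⟩
  obtain ⟨ξ, ⟨n', hξ⟩, d⟩ := Metric.mem_closure_iff.1 h (min (δ / 4) (1 / 4)) (by positivity)
  obtain ⟨r, hr, e, s1, s2⟩ := hξ (min (δ / 2) (1 / 4)) (by positivity)
  rw [dist_eq_norm, lt_min_iff] at d
  refine ⟨r, hr, fun x => ?_, s1, ?_⟩
  · rw [show r x ^ 2 - (φ x - ζ ^ 2) = r x ^ 2 - (φ x - ξ ^ 2) + (ζ - ξ) * (ζ + ξ) by ring]
    refine (norm_add_le _ _).trans ?_
    have := norm_add_le ζ ξ
    rw [norm_mul]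
    nlinarith [(e x).trans (min_le_left _ _), d.1, norm_nonneg (ζ - ξ), norm_nonneg (ζ + ξ)]
  · have a := near s2 ((wq n').trans_le (hq ▸ (e q).trans (min_le_right _ _))) (by norm_num)
    have b : ‖r q‖ ≤ 2 := by
      have := norm_le_norm_add_norm_sub' (r q * -I * (starRingEnd ℂ) ξ) 1
      simp only [norm_mul, norm_neg, norm_I, norm_conj, n', norm_one] at this
      linarith
    have c : ‖r q * -I * (starRingEnd ℂ) (ζ - ξ)‖ ≤ 1 / 2 := by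
      simp only [norm_mul, norm_neg, norm_I, norm_conj]
      nlinarith [d.2, norm_nonneg (ζ - ξ), norm_nonneg (r q)]
    have a' := (abs_le.1 ((abs_re_le_norm _).trans a)).1
    have c' := (abs_le.1 ((abs_re_le_norm _).trans c)).1
    rw [map_sub, mul_sub, sub_re] at c'
    rw [sub_re, one_re] at a'
    linarith

lemma re2 {ζ : ℂ} (h : ‖ζ‖ = 1) : 1 ≤ (2 - ζ ^ 2).re := by
  have := re_le_norm (ζ ^ 2)
  rw [norm_pow, h] at this
  simp only [sub_re, re_ofNat]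
  linarith

lemma P_both (hB : Sq B) {φ : C(K, ℂ)} (hφ : φ ∈ B) {p q : K} (hp : φ p = 2) (hq : φ q = 0) :
    ∃ ζ, ζ ∈ P B φ p q 1 ∧ ζ ∈ P B φ p q (-1) := by
  have cov : ∀ ζ : ℂ, ‖ζ‖ = 1 → ζ ∈ P B φ p q 1 ∨ ζ ∈ P B φ p q (-1) := fun ζ n => by
    by_contra! hc
    simp only [P, mem_setOf_eq, n, true_and, not_forall] at hc
    obtain ⟨⟨δ₁, h1, c1⟩, δ₂, h2, c2⟩ := hc
    obtain ⟨r, hr, e⟩ := hB (φ - algebraMap ℂ _ (ζ ^ 2)) (sub_mem hφ (algebraMap_mem _ _))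
      (min (min δ₁ δ₂) (1 / 2)) (by positivity)
    simp only [ContinuousMap.sub_apply, algebraMap_apply, smul_eq_mul, mul_one,
      le_min_iff] at e
    have a := re_half (re2 n) (hp ▸ (e p).2.trans (by norm_num))
    have b := re_half (by simp) ((wq n).trans_le (hq ▸ (e q).2.trans (by norm_num)))
    have k : ∀ s ∈ B, (∀ x, s x ^ 2 = r x ^ 2) → (s p).re ≠ 0 →
        0 < (s q * -I * (starRingEnd ℂ) ζ).re → False := fun s hs es n1 n2 => by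
      rcases lt_or_gt_of_ne n1 with c | c
      · exact c2 ⟨s, hs, fun x => es x ▸ (e x).1.2, by linarith, n2⟩
      · exact c1 ⟨s, hs, fun x => es x ▸ (e x).1.1, by linarith, n2⟩
    have a' : (r p).re ≠ 0 := fun h => by rw [h] at a; norm_num at a
    rcases le_abs.1 b with c | c
    · exact k r hr (fun _ => rfl) a' (by linarith)
    · refine k (-r) (neg_mem hr) (fun x => by simp) (by simpa using a') ?_
      rw [ContinuousMap.neg_apply, neg_mul, neg_mul, neg_re]; linarith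
  have flip : ∀ s ζ, ζ ∈ P B φ p q s → -ζ ∈ P B φ p q (-s) := fun s ζ h =>
    ⟨by simpa using h.1, fun δ hδ => by
      obtain ⟨r, hr, e, s1, s2⟩ := h.2 δ hδ
      exact ⟨-r, neg_mem hr, fun x => by simpa using e x, by simpa using s1, by simpa using s2⟩⟩
  have m : ∀ s ζ, ζ ∈ P B φ p q s → ζ ∈ Metric.sphere (0 : ℂ) 1 := fun s ζ h => by simpa using h.1
  obtain ⟨ζ, -, h⟩ := isPreconnected_closed_iff.1 (isPreconnected_sphere (by simp) (0 : ℂ) 1) _ _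
    (P_closed φ hq 1) (P_closed φ hq (-1)) (fun ζ h => cov ζ (by simpa using h))
    ((cov 1 (by simp)).elim (fun h => ⟨_, m _ _ h, h⟩) fun h =>
      ⟨_, m _ _ (flip _ _ h), by simpa using flip _ _ h⟩)
    ((cov 1 (by simp)).elim (fun h => ⟨_, m _ _ (flip _ _ h), flip _ _ h⟩) fun h => ⟨_, m _ _ h, h⟩)
  exact ⟨ζ, h⟩

end Pool.Agent.H.MP_e19c20_an
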