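import Pool.Agent.H.MP_e19c20_an.A

namespace Pool.Agent.H.MP_e19c20_an
open Set Filter Topology Complex

variable {K : Type} [TopologicalSpace K] [CompactSpace K] {B : Subalgebra ℂ C(K, ℂ)}

lemma sep (hB : Sq B) {φ : C(K, ℂ)} (hφ : φ ∈ B) {p q : K} (hp : φ p = 2) (hq : φ q = 0)
    {E F : Set K} (hE : IsPreconnected E) (hF : IsPreconnected F) (qE : q ∈ E) (pF : p ∈ F)
    (cE : ∀ x ∈ E, ‖φ x‖ ≤ 1 / 4) (cF : ∀ x ∈ F, ‖φ x - 2‖ ≤ 1 / 4) : Good B E F := by
  obtain ⟨ζ, ⟨n, h1⟩, -, h2⟩ := P_both hB hφ hp hq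
  obtain ⟨R, R0, hR⟩ : ∃ R : ℝ, 0 < R ∧ ∀ x, ‖φ x‖ + 2 ≤ R ^ 2 :=
    ⟨‖φ‖ + 2, by positivity, fun x => by nlinarith [φ.norm_coe_le_norm x, norm_nonneg φ]⟩
  refine St.good hB hE (m := R ^ 2) (by positivity) fun δ hδ => ?_
  obtain ⟨ε, ε0, a1, a2, a3⟩ : ∃ ε : ℝ, 0 < ε ∧ ε ≤ 1 / 16 ∧ R * ε ≤ 1 / 16 ∧ 2 * (R * ε) ≤ δ := by
    refine ⟨min (1 / 16) (min (1 / 16) (δ / 2) / R), by positivity, min_le_left _ _, ?_, ?_⟩ <;>
    have := (le_div_iff₀' R0).1 (min_le_right (1 / 16) (min (1 / 16) (δ / 2) / R)) <;>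
    rw [le_min_iff] at this <;> linarith [this.1, this.2]
  obtain ⟨r, hr, e, s1, s2⟩ := h1 ε ε0
  obtain ⟨s, hs, e', s3, s4⟩ := h2 ε ε0
  have n2 : ‖ζ ^ 2‖ = 1 := by rw [norm_pow, n, one_pow]
  have d : ∀ x, ‖r x ^ 2 - s x ^ 2‖ ≤ 2 * ε := fun x => by
    linarith [norm_sub_le_norm_sub_add_norm_sub (r x ^ 2) (φ x - ζ ^ 2) (s x ^ 2), e x,
      (norm_sub_rev _ _).trans_le (e' x)]
  have up : ∀ t : C(K, ℂ), (∀ x, ‖t x ^ 2 - (φ x - ζ ^ 2)‖ ≤ ε) → ∀ x, ‖t x‖ ≤ R := fun t h x => by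
    refine le_of_sq_le_sq ?_ R0.le
    rw [← norm_pow]
    linarith [norm_le_norm_add_norm_sub' (t x ^ 2) (φ x - ζ ^ 2), norm_sub_le (φ x) (ζ ^ 2), h x, hR x]
  have lo : ∀ x ∈ E ∪ F, 1 / 2 ≤ ‖s x‖ := fun x hx => by
    refine le_of_sq_le_sq ?_ (norm_nonneg _)
    rw [← norm_pow]
    have := norm_le_norm_add_norm_sub (s x ^ 2) (φ x - ζ ^ 2)
    rcases hx with hx | hx
    · linarith [norm_sub_norm_le (ζ ^ 2) (φ x), norm_sub_rev (ζ ^ 2) (φ x), cE x hx, e' x]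
    · have h3 := norm_le_norm_add_norm_sub (φ x) 2
      rw [show ‖(2 : ℂ)‖ = 2 by simp] at h3
      linarith [norm_sub_norm_le (φ x) (ζ ^ 2), cF x hx, e' x]
  have pos : ∀ x ∈ E ∪ F, 0 ≤ (r x * (starRingEnd ℂ) (s x)).re → ‖r x - s x‖ ≤ 4 * ε :=
    fun x hx h => dich (d x) (lo x hx) h
  have neg : ∀ x ∈ E ∪ F, (r x * (starRingEnd ℂ) (s x)).re ≤ 0 → ‖r x + s x‖ ≤ 4 * ε :=
    fun x hx h => by
      simpa using dich (s := -s x) (by simpa using d x) (by simpa using lo x hx)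
        (by rw [map_neg, mul_neg, neg_re]; linarith)
  have nz : ∀ x ∈ E ∪ F, (r x * (starRingEnd ℂ) (s x)).re ≠ 0 := fun x hx h => by
    have := norm_sub_le (r x + s x) (r x - s x)
    rw [show r x + s x - (r x - s x) = 2 * s x by ring, norm_mul, show ‖(2 : ℂ)‖ = 2 by simp] at this
    linarith [pos x hx h.ge, neg x hx h.le, lo x hx]
  have hq' : 0 < (r q * (starRingEnd ℂ) (s q)).re := by
    by_contra! h
    have b1 := re_half (by simp) ((wq n).trans_le (hq ▸ (e q).trans (by linarith)))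
    have b2 := re_half (by simp) ((wq n).trans_le (hq ▸ (e' q).trans (by linarith)))
    rw [abs_of_pos s2] at b1
    rw [abs_of_pos s4] at b2
    have := re_le_norm ((r q + s q) * -I * (starRingEnd ℂ) ζ)
    rw [norm_mul, norm_mul, norm_neg, norm_I, norm_conj, n, add_mul, add_mul, add_re] at this
    linarith [neg q (Or.inl qE) h]
  have hp' : 0 < -(r p * (starRingEnd ℂ) (s p)).re := by
    by_contra! h
    have b1 := re_half (re2 n) (hp ▸ (e p).trans (by linarith))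
    have b2 := re_half (re2 n) (hp ▸ (e' p).trans (by linarith))
    rw [abs_of_pos (by linarith)] at b1
    rw [abs_of_neg (by linarith)] at b2
    have := re_le_norm (r p - s p)
    rw [sub_re] at this
    linarith [pos p (Or.inr pF) (by linarith)]
  have nG : ∀ x, ‖((-(starRingEnd ℂ) ζ ^ 2 / 2) • (r * (r + s))) x‖ = ‖r x‖ * ‖r x + s x‖ / 2 :=
    fun x => by simp [n]; ring
  refine ⟨(-(starRingEnd ℂ) ζ ^ 2 / 2) • (r * (r + s)), B.smul_mem (mul_mem hr (add_mem hr hs)) _,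
    fun x => ?_, fun x hx => ?_, fun x hx => ?_⟩
  · rw [nG]
    nlinarith [mul_le_mul (up r e x) ((norm_add_le _ _).trans (add_le_add (up r e x) (up s e' x)))
      (norm_nonneg _) R0.le]
  · have c := pos x (Or.inl hx) (sgn hE (by fun_prop) (fun y hy => nz y (Or.inl hy)) qE hx hq').le
    have z : ζ * (starRingEnd ℂ) ζ = 1 := by rw [mul_conj, normSq_eq_norm_sq, n]; simp
    rw [show ((-(starRingEnd ℂ) ζ ^ 2 / 2) • (r * (r + s))) x - 1 = -(starRingEnd ℂ) ζ ^ 2 *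
      (r x ^ 2 - (φ x - ζ ^ 2) + φ x - r x * (r x - s x) / 2) by
        simp only [ContinuousMap.smul_apply, ContinuousMap.mul_apply, ContinuousMap.add_apply,
          smul_eq_mul]
        linear_combination (ζ * (starRingEnd ℂ) ζ + 1) * z, norm_mul, norm_neg, norm_pow, norm_conj,
      n, one_pow, one_mul]
    refine (norm_sub_le _ _).trans ((add_le_add_left (norm_add_le _ _) _).trans ?_)
    rw [norm_div, norm_mul, show ‖(2 : ℂ)‖ = 2 by simp]
    linarith [mul_le_mul (up r e x) c (norm_nonneg _) R0.le, e x, cE x hx]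
  · have c := neg x (Or.inr hx) (neg_pos.1 (sgn hF (g := fun x => -(r x * (starRingEnd ℂ) (s x)).re)
      (by fun_prop) (fun y hy => neg_ne_zero.2 (nz y (Or.inr hy))) pF hx hp')).le
    rw [nG]
    linarith [mul_le_mul (up r e x) c (norm_nonneg _) R0.le]

omit [CompactSpace K] in
lemma Good.mul {E E' F F' : Set K} (h : Good B E F) (h' : Good B E' F') :
    Good B (E ∩ E') (F ∪ F') := fun η hη => by
  obtain ⟨u, hu, a1, a2, a3⟩ := h (min (η / 3) 1) (by positivity)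
  obtain ⟨v, hv, b1, b2, b3⟩ := h' (min (η / 3) 1) (by positivity)
  have l1 := min_le_left (η / 3) 1
  have l2 := min_le_right (η / 3) 1
  have l0 : 0 < min (η / 3) 1 := by positivity
  generalize min (η / 3) 1 = t at *
  refine ⟨u * v, mul_mem hu hv, fun x => ?_, fun x hx => ?_, fun x hx => ?_⟩
  · rw [ContinuousMap.mul_apply, norm_mul]
    nlinarith [mul_le_mul (a1 x) (b1 x) (norm_nonneg _) (by linarith)]
  · rw [ContinuousMap.mul_apply, show u x * v x - 1 = u x * (v x - 1) + (u x - 1) by ring]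
    refine (norm_add_le _ _).trans ?_
    rw [norm_mul]
    nlinarith [mul_le_mul (a1 x) (b2 x hx.2) (norm_nonneg _) (by linarith), a2 x hx.1]
  · rw [ContinuousMap.mul_apply, norm_mul]
    rcases hx with hx | hx
    · nlinarith [mul_le_mul (a3 x hx) (b1 x) (norm_nonneg _) (by linarith)]
    · nlinarith [mul_le_mul (a1 x) (b3 x hx) (norm_nonneg _) (by linarith)]

variable [LocallyConnectedSpace K]

lemma loc (hB : Sq B) (hs : ∀ x y : K, x ≠ y → ∃ f ∈ B, f x ≠ f y) {q : K} {F : Set K}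
    (hF : IsCompact F) (hq : q ∉ F) : ∃ E ∈ 𝓝 q, Good B E F := by
  refine hF.induction_on (p := fun F => ∃ E ∈ 𝓝 q, Good B E F)
    ⟨univ, univ_mem, fun η h => ⟨1, one_mem _, by simp [h.le], by simp [h.le], by simp⟩⟩
    (fun s t st ⟨E, a, b⟩ => ⟨E, a, fun η h => (b η h).imp fun G ⟨a, b, c, d⟩ =>
      ⟨a, b, c, fun x hx => d x (st hx)⟩⟩)
    (fun s t ⟨E, a, b⟩ ⟨E', a', b'⟩ => ⟨_, inter_mem a a', b.mul b'⟩) fun p hp => ?_
  obtain ⟨f, hf, ne⟩ := hs p q fun e => hq (e ▸ hp)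
  let φ : C(K, ℂ) := (2 / (f p - f q)) • (f - algebraMap ℂ _ (f q))
  have e1 : φ p = 2 := by simp [φ, algebraMap_apply, sub_ne_zero.2 ne]
  have e2 : φ q = 0 := by simp [φ, algebraMap_apply]
  have k : ∀ x, ∃ E ∈ 𝓝 x, IsPreconnected E ∧ ∀ y ∈ E, ‖φ y - φ x‖ ≤ 1 / 4 := fun x => by
    obtain ⟨E, a, b, c⟩ := locallyConnectedSpace_iff_connected_subsets.1 inferInstance x _
      (φ.continuous.continuousAt.preimage_mem_nhds (Metric.closedBall_mem_nhds (φ x) (ε := 1 / 4)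
        (by norm_num)))
    exact ⟨E, a, b, fun y hy => mem_closedBall_iff_norm.1 (c hy)⟩
  obtain ⟨E, a, b, c⟩ := k q
  obtain ⟨V, a', b', c'⟩ := k p
  exact ⟨V, mem_nhdsWithin_of_mem_nhds a', E, a, sep (φ := φ) hB
    (B.smul_mem (sub_mem hf (algebraMap_mem _ _)) _)
    e1 e2 b b' (mem_of_mem_nhds a) (mem_of_mem_nhds a')
    (fun y hy => by simpa only [e2, sub_zero] using c y hy)
    (fun y hy => by simpa only [e1] using c' y hy)⟩

lemma glob (hB : Sq B) (hs : ∀ x y : K, x ≠ y → ∃ f ∈ B, f x ≠ f y) {E F : Set K}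
    (hE : IsCompact E) (hc : IsPreconnected E) (hF : IsCompact F) (hd : ∀ x ∈ E, x ∉ F) :
    Good B E F := by
  obtain ⟨M, M0, h⟩ : ∃ M : ℝ, 1 ≤ M ∧ ∀ δ > 0, ∃ v ∈ B, (∀ x, ‖v x‖ ≤ M) ∧ (∀ x ∈ E, ‖v x‖ ≤ δ) ∧
      ∀ x ∈ F, ‖v x - 1‖ ≤ δ := by
    refine hE.induction_on (p := fun E => ∃ M : ℝ, 1 ≤ M ∧ ∀ δ > 0, ∃ v ∈ B, (∀ x, ‖v x‖ ≤ M) ∧
      (∀ x ∈ E, ‖v x‖ ≤ δ) ∧ ∀ x ∈ F, ‖v x - 1‖ ≤ δ)
      ⟨1, le_rfl, fun δ h => ⟨1, one_mem _, by simp, by simp, by simp [h.le]⟩⟩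
      (fun s t st ⟨M, a, b⟩ => ⟨M, a, fun η h => (b η h).imp fun G ⟨a, b, c, d⟩ =>
        ⟨a, b, fun x hx => c x (st hx), d⟩⟩)
      (fun s t ⟨M, a, b⟩ ⟨N, a', b'⟩ => ⟨M * N, one_le_mul_of_one_le_of_one_le a a', fun δ h => ?_⟩)
      fun q hq => ?_
    · have t0 : 0 < δ / (M + N) := by positivity
      have t1 : δ / (M + N) * (M + N) = δ := by field_simp
      obtain ⟨u, hu, a1, a2, a3⟩ := b _ t0
      obtain ⟨v, hv, b1, b2, b3⟩ := b' _ t0
      generalize δ / (M + N) = t at *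
      refine ⟨u * v, mul_mem hu hv, fun x => ?_, fun x hx => ?_, fun x hx => ?_⟩
      · rw [ContinuousMap.mul_apply, norm_mul]
        exact mul_le_mul (a1 x) (b1 x) (norm_nonneg _) (by linarith)
      · rw [ContinuousMap.mul_apply, norm_mul]
        rcases hx with hx | hx
        · nlinarith [mul_le_mul (a2 x hx) (b1 x) (norm_nonneg _) (by linarith)]
        · nlinarith [mul_le_mul (a1 x) (b2 x hx) (norm_nonneg _) (by linarith)]
      · rw [ContinuousMap.mul_apply, show u x * v x - 1 = u x * (v x - 1) + (u x - 1) by ring]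
        refine (norm_add_le _ _).trans ?_
        rw [norm_mul]
        nlinarith [mul_le_mul (a1 x) (b3 x hx) (norm_nonneg _) (by linarith), a3 x hx]
    · obtain ⟨V, a, b⟩ := loc hB hs hF (hd q hq)
      refine ⟨V, mem_nhdsWithin_of_mem_nhds a, 3, by norm_num, fun δ h => ?_⟩
      obtain ⟨u, hu, a1, a2, a3⟩ := b (min δ 1) (by positivity)
      refine ⟨1 - u, sub_mem (one_mem _) hu, fun x => ?_, fun x hx => ?_, fun x hx => ?_⟩
      · refine (norm_sub_le _ _).trans ?_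
        have := min_le_right δ 1
        simp only [ContinuousMap.one_apply, norm_one]; linarith [a1 x]
      · exact (norm_sub_rev _ _).trans_le ((a2 x hx).trans (min_le_left _ _))
      · simpa using (a3 x hx).trans (min_le_left _ _)
  refine St.good hB hc (m := M) (by linarith) fun δ h0 => ?_
  obtain ⟨v, hv, a1, a2, a3⟩ := h (min δ (1 / 2)) (by positivity)
  refine ⟨1 - v, sub_mem (one_mem _) hv, fun x => (norm_sub_le _ _).trans (by simpa using a1 x),
    fun x hx => by simpa using (a2 x hx).trans (min_le_right _ _), fun x hx =>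
      (norm_sub_rev _ _).trans_le ((a3 x hx).trans (min_le_left _ _))⟩

lemma approx (hB : Sq B) (hs : ∀ x y : K, x ≠ y → ∃ f ∈ B, f x ≠ f y) {f : K → ℝ}
    (hf : Continuous f) (h0 : ∀ x, 0 ≤ f x ∧ f x ≤ 1) (hc : ∀ s, IsPreconnected {x | s ≤ f x}) :
    ∃ w ∈ B, ∀ x, ‖w x - f x‖ ≤ 1 / 20 := by
  have k : ∀ k : ℕ, Good B {x | (k + 1 : ℝ) / 100 ≤ f x} {x | f x ≤ k / 100} := fun k =>
    glob hB hs (isClosed_le continuous_const hf).isCompact (hc _)
      (isClosed_le hf continuous_const).isCompact fun x a b => by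
        simp only [mem_setOf_eq] at a b; linarith
  choose u hu a1 a2 a3 using fun j => k j (1 / 100) (by norm_num)
  refine ⟨(1 / 100 : ℂ) • ∑ k ∈ Finset.range 100, u k, B.smul_mem (sum_mem fun k _ => hu k) _,
    fun x => ?_⟩
  obtain ⟨j, j1, j2⟩ : ∃ j : ℕ, (j : ℝ) ≤ 100 * f x ∧ 100 * f x < j + 1 :=
    ⟨_, Nat.floor_le (by linarith [(h0 x).1]), Nat.lt_floor_add_one _⟩
  have j3 : j ≤ 100 := by
    have : (j : ℝ) ≤ 100 := by linarith [(h0 x).2]
    exact_mod_cast this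
  have s1 : ∑ k ∈ Finset.range 100, (if k < j then (1 : ℂ) else 0) = j := by
    rw [Finset.sum_boole, show (Finset.range 100).filter (· < j) = Finset.range j by
      ext; simp; omega, Finset.card_range]
  have s2 : ‖∑ k ∈ Finset.range 100, (u k x - if k < j then (1 : ℂ) else 0)‖ ≤ 2 := by
    refine (norm_sum_le_of_le (n := fun k => 1 / 100 + if k = j then 1 else 0) _ fun k _ => ?_).trans ?_
    · rcases lt_trichotomy k j with c | rfl | c
      · have : (k + 1 : ℝ) ≤ j := by exact_mod_cast c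
        simpa [c, c.ne] using a2 k x (show (k + 1 : ℝ) / 100 ≤ f x by linarith)
      · simpa [add_comm] using a1 k x
      · have : (j + 1 : ℝ) ≤ k := by exact_mod_cast c
        simpa [c.le.not_gt, c.ne'] using a3 k x (show f x ≤ (k : ℝ) / 100 by linarith)
    · rw [Finset.sum_add_distrib, Finset.sum_ite_eq']
      split_ifs <;> norm_num
  rw [Finset.sum_sub_distrib, s1] at s2
  rw [show ((1 / 100 : ℂ) • ∑ k ∈ Finset.range 100, u k) x - f x = 1 / 100 *
    (∑ k ∈ Finset.range 100, u k x - j + ((j - 100 * f x : ℝ) : ℂ)) by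
      simp only [ContinuousMap.smul_apply, ContinuousMap.sum_apply, smul_eq_mul]; push_cast; ring,
    norm_mul]
  have := norm_add_le (∑ k ∈ Finset.range 100, u k x - j) ((j - 100 * f x : ℝ) : ℂ)
  rw [norm_real, Real.norm_eq_abs, abs_of_nonpos (by linarith)] at this
  norm_num at this ⊢
  linarith

end Pool.Agent.H.MP_e19c20_an
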