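import Pool.Agent.H.MP_e19c20_an.B

namespace Pool.Agent.H.MP_e19c20_an
open Set Filter Topology Complex

lemma lev (u : Circle) (t : ℝ) : IsPreconnected {z : Circle | t ≤ ((z * u : Circle) : ℂ).re} := by
  by_cases h : 1 < t
  · convert isPreconnected_empty
    refine eq_empty_of_forall_notMem fun z hz => ?_
    have := re_le_norm ((z * u : Circle) : ℂ)
    rw [Circle.norm_coe] at this
    exact absurd (le_trans hz this) h.not_ge
  convert (isPreconnected_Icc (a := -Real.arccos t) (b := Real.arccos t)).image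
    (fun θ => Circle.exp θ * u⁻¹) (by fun_prop)
  have e : ∀ θ : ℝ, ((Circle.exp θ : Circle) : ℂ).re = Real.cos |θ| := fun θ => by
    rw [Circle.coe_exp, exp_ofReal_mul_I_re, Real.cos_abs]
  ext z
  constructor
  · intro hz
    refine ⟨arg (z * u : Circle), abs_le.1 ?_, by simp only [Circle.exp_arg]; simp⟩
    rw [← Real.arccos_cos (abs_nonneg _) (abs_arg_le_pi _), ← e, Circle.exp_arg]
    exact Real.arccos_le_arccos hz
  · rintro ⟨θ, h1, rfl⟩
    simp only [mem_setOf_eq, inv_mul_cancel_right, e]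
    by_cases c : -1 ≤ t
    · rw [← Real.cos_arccos c (not_lt.1 h)]
      exact Real.cos_le_cos_of_nonneg_of_le_pi (abs_nonneg _) (Real.arccos_le_pi _) (abs_le.2 h1)
    · linarith [Real.neg_one_le_cos |θ|]

lemma circ {B : Subalgebra ℂ C(Circle, ℂ)} (hB : Sq B)
    (hs : ∀ x y : Circle, x ≠ y → ∃ f ∈ B, f x ≠ f y) : False := by
  haveI := ChartedSpace.locallyConnectedSpace (EuclideanSpace ℝ (Fin 1)) Circle
  have k : ∀ u : Circle, ∃ w ∈ B, ∀ x, ‖w x - ((((x * u : Circle) : ℂ).re + 1) / 2 : ℝ)‖ ≤ 1 / 20 :=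
    fun u => approx hB hs (by fun_prop) (fun x => by
      have := abs_le.1 ((abs_re_le_norm ((x * u : Circle) : ℂ)).trans_eq (Circle.norm_coe _))
      constructor <;> linarith [this.1, this.2]) fun s => by
        convert lev u (2 * s - 1) using 3
        constructor <;> intro <;> linarith
  obtain ⟨v, hv, e1⟩ := k 1
  obtain ⟨w, hw, e2⟩ := k ⟨-I, by simp [Submonoid.unitSphere]⟩
  obtain ⟨r, hr, e⟩ := hB ((2 : ℂ) • v - 1 + I • ((2 : ℂ) • w - 1))
    (add_mem (sub_mem (B.smul_mem hv _) (one_mem _))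
      (B.smul_mem (sub_mem (B.smul_mem hw _) (one_mem _)) _)) (1 / 5) (by norm_num)
  have e3 : ∀ x : Circle, ‖r x ^ 2 - x‖ ≤ 3 / 4 := fun x => by
    have a := e1 x
    have b := e2 x
    have c := e x
    simp only [mul_one, Circle.coe_mul, mul_neg, neg_re, mul_I_re, neg_neg] at a b
    simp only [ContinuousMap.add_apply, ContinuousMap.sub_apply, ContinuousMap.smul_apply,
      ContinuousMap.one_apply, smul_eq_mul] at c
    rw [show r x ^ 2 - x = r x ^ 2 - (2 * v x - 1 + I * (2 * w x - 1)) +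
      (2 * (v x - (((x : ℂ).re + 1) / 2 : ℝ)) + I * (2 * (w x - (((x : ℂ).im + 1) / 2 : ℝ)))) by
        push_cast; linear_combination re_add_im (x : ℂ)]
    refine (norm_add_le _ _).trans ((add_le_add_right (norm_add_le _ _) _).trans ?_)
    simp only [norm_mul, norm_I, one_mul, norm_ofNat]
    linarith
  let h : ℝ → ℝ := fun θ => (r (Circle.exp θ) * exp (-(θ / 2) * I)).re
  have hc : Continuous h := by fun_prop
  have nz : ∀ θ ∈ (univ : Set ℝ), h θ ≠ 0 := fun θ _ h0 => by
    have : ‖(r (Circle.exp θ) * exp (-(θ / 2) * I)) ^ 2 - 1‖ ≤ 3 / 4 := by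
      have z : exp (-(θ / 2) * I) ^ 2 * exp (θ * I) = 1 := by
        rw [← exp_nat_mul, ← exp_add, ← exp_zero]; congr 1; push_cast; ring
      have n : ‖exp (-(θ / 2) * I)‖ = 1 := by
        simpa using norm_exp_ofReal_mul_I (-(θ / 2))
      rw [show (r (Circle.exp θ) * exp (-(θ / 2) * I)) ^ 2 - 1 = exp (-(θ / 2) * I) ^ 2 *
        (r (Circle.exp θ) ^ 2 - Circle.exp θ) by rw [Circle.coe_exp]; linear_combination z,
        norm_mul, norm_pow, n, one_pow, one_mul]
      exact e3 _
    have := re_half (by simp) this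
    rw [show (r (Circle.exp θ) * exp (-(θ / 2) * I)).re = 0 from h0] at this
    norm_num at this
  have e4 : h (2 * Real.pi) = -h 0 := by
    simp only [h, Circle.exp_two_pi, Circle.exp_zero]
    rw [show (-(((2 * Real.pi : ℝ) : ℂ) / 2) * I) = -(Real.pi * I) by push_cast; ring, exp_neg, exp_pi_mul_I]
    simp
  rcases lt_or_gt_of_ne (nz 0 trivial) with c | c
  · linarith [sgn isPreconnected_univ hc nz (x := 2 * Real.pi) (y := 0) trivial trivial (by linarith)]
  · linarith [sgn isPreconnected_univ hc nz (y := 2 * Real.pi) (x := 0) trivial trivial c]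

end Pool.Agent.H.MP_e19c20_an
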