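import Pool.Agent.H.MP_e19c20_an.C

namespace Pool.Agent.H.MP_e19c20_an
open Set Filter Topology Complex

def kk (m : ℕ) : ℕ := m.unpair.1
def ii (m : ℕ) : ℕ := m.unpair.2.unpair.1
def jj (m : ℕ) : ℕ := m.unpair.2.unpair.2

lemma ii_lt (m : ℕ) : ii m < m + 1 :=
  Nat.lt_succ_of_le ((Nat.unpair_left_le _).trans (Nat.unpair_right_le _))
lemma jj_lt (m : ℕ) : jj m < m + 1 :=
  Nat.lt_succ_of_le ((Nat.unpair_right_le _).trans (Nat.unpair_right_le _))
lemma code (k i j : ℕ) : ∃ m, kk m = k ∧ ii m = i ∧ jj m = j :=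
  ⟨k.pair (i.pair j), by simp [kk, ii, jj]⟩

noncomputable def L (m : ℕ) {R : Type} [Ring R] [Algebra ℂ R] (x y : R) : R :=
  if kk m = 0 then x + y else if kk m = 1 then x * y else
    algebraMap ℂ R (TopologicalSpace.denseSeq ℂ (ii m))

def Cn (m : ℕ) (t : ℕ → ℂ) : Prop :=
  if kk m = 2 then t (m + 1) ^ 2 = t (ii m) else t (m + 1) = L m (t (ii m)) (t (jj m))

def XS : Set (ℕ → ℂ) := {t | ‖t 0‖ ≤ 1 ∧ ∀ m, Cn m t}

lemma L_map (m : ℕ) {R S : Type} [Ring R] [Algebra ℂ R] [Ring S] [Algebra ℂ S] (f : R →ₐ[ℂ] S)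
    (x y : R) : f (L m x y) = L m (f x) (f y) := by
  unfold L; split_ifs <;> simp

lemma L_cont (m : ℕ) : Continuous fun t : ℕ → ℂ => L m (t (ii m)) (t (jj m)) := by
  unfold L; split_ifs <;> fun_prop

lemma XS_closed : IsClosed XS := by
  refine (isClosed_le (f := fun t : ℕ → ℂ => ‖t 0‖) (by fun_prop) continuous_const).inter
    (s₂ := {t | ∀ m, Cn m t}) ?_
  simp only [Set.ofPred_forall]
  refine isClosed_iInter fun m => ?_
  unfold Cn
  split_ifs
  · exact isClosed_eq (by fun_prop) (by fun_prop)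
  · exact isClosed_eq (by fun_prop) (L_cont m)

lemma XS_bd (n : ℕ) : ∃ b, ∀ t ∈ XS, ‖t n‖ ≤ b := by
  induction n using Nat.strong_induction_on with
  | _ n ih =>
    rcases n with _ | m
    · exact ⟨1, fun t ht => ht.1⟩
    obtain ⟨a, ha⟩ := ih _ (ii_lt m)
    obtain ⟨b, hb⟩ := ih _ (jj_lt m)
    refine ⟨1 + |a| + |b| + |a| * |b| + ‖TopologicalSpace.denseSeq ℂ (ii m)‖, fun t ht => ?_⟩
    have h := ht.2 m
    have h1 := (ha t ht).trans (le_abs_self a)
    have h2 := (hb t ht).trans (le_abs_self b)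
    have h3 := mul_le_mul h1 h2 (norm_nonneg _) (abs_nonneg _)
    have h4 := norm_nonneg (TopologicalSpace.denseSeq ℂ (ii m))
    have h5 := mul_nonneg (abs_nonneg a) (abs_nonneg b)
    have h6 := abs_nonneg a
    have h7 := abs_nonneg b
    unfold Cn L at h
    split_ifs at h
    · rw [← h, norm_pow] at h1
      nlinarith [sq_nonneg (‖t (m + 1)‖ - 1)]
    · rw [h]; linarith [norm_add_le (t (ii m)) (t (jj m))]
    · rw [h, norm_mul]; linarith
    · rw [h]; simp only [Algebra.algebraMap_self, RingHom.id_apply]; linarith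

instance : CompactSpace XS := by
  choose b hb using XS_bd
  exact isCompact_iff_compactSpace.1 ((isCompact_univ_pi fun n =>
    isCompact_closedBall (0 : ℂ) (b n)).of_isClosed_subset XS_closed fun t ht n _ => by
      simpa using hb n t ht)

noncomputable def ext (n : ℕ) (s : ℕ → ℂ) : ℕ → ℂ
  | 0 => s 0
  | m + 1 => if m + 1 < n then s (m + 1) else
      have := ii_lt m
      have := jj_lt m
      if kk m = 2 then ext n s (ii m) ^ (2⁻¹ : ℂ) else L m (ext n s (ii m)) (ext n s (jj m))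

lemma extend {n : ℕ} {s : ℕ → ℂ} (h0 : ‖s 0‖ ≤ 1) (h : ∀ m, m + 1 < n → Cn m s) :
    ∃ t : XS, t.1 0 = s 0 ∧ ∀ k < n, t.1 k = s k := by
  have e : ∀ k < n, ext n s k = s k := fun k hk => by
    rcases k with _ | k <;> rw [ext]
    exact if_pos hk
  refine ⟨⟨ext n s, by rwa [ext], fun m => ?_⟩, by simp only [ext], e⟩
  by_cases c : m + 1 < n
  · have := h m c
    unfold Cn at this ⊢
    rwa [e _ c, e _ ((ii_lt m).trans c), e _ ((jj_lt m).trans c)]
  · unfold Cn
    rw [ext, if_neg c]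
    split_ifs with h
    · simpa [h] using cpow_ofNat_inv_pow (ext n s (ii m)) 2
    · rfl

def co (n : ℕ) : C(XS, ℂ) := ⟨fun t => t.1 n, (continuous_apply n).comp continuous_subtype_val⟩

lemma co_sq {m : ℕ} (h : kk m = 2) : co (m + 1) ^ 2 = co (ii m) := by
  ext t
  have := t.2.2 m
  rw [Cn, if_pos h] at this
  exact this

lemma co_L {m : ℕ} (h : kk m ≠ 2) : co (m + 1) = L m (co (ii m)) (co (jj m)) := by
  ext t
  have := t.2.2 m
  rw [Cn, if_neg h] at this
  exact this.trans (L_map m (ContinuousMap.evalAlgHom ℂ ℂ t) (co (ii m)) (co (jj m))).symm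

noncomputable def Rn (n : ℕ) : Subalgebra ℂ C(XS, ℂ) := Algebra.adjoin ℂ (co '' Iio n)

lemma co_mem {i n : ℕ} (h : i < n) : co i ∈ Rn n := Algebra.subset_adjoin ⟨i, h, rfl⟩

lemma Rn_dep {n : ℕ} {g : C(XS, ℂ)} (hg : g ∈ Rn n) {t s : XS} (h : ∀ k < n, t.1 k = s.1 k) :
    g t = g s :=
  (Algebra.adjoin_le (S := AlgHom.equalizer (ContinuousMap.evalAlgHom ℂ ℂ t)
    (ContinuousMap.evalAlgHom ℂ ℂ s)) (by rintro _ ⟨k, hk, rfl⟩; exact h k hk)) hg

lemma far (n : ℕ) : ∀ g ∈ Rn (n + 1), ∃ t : XS, 1 ≤ ‖(starRingEnd ℂ) (t.1 0) - g t‖ := by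
  induction n with
  | zero =>
    intro g hg
    obtain ⟨P, hP, e⟩ : ∃ P : ℂ → ℂ, Differentiable ℂ P ∧ ∀ t, g t = P (t.1 0) := by
      induction hg using Algebra.adjoin_induction with
      | mem x hx =>
        obtain ⟨k, hk, rfl⟩ := hx
        obtain rfl : k = 0 := by simpa using hk
        exact ⟨id, differentiable_id, fun t => rfl⟩
      | algebraMap r => exact ⟨fun _ => r, by fun_prop, fun t => by simp [algebraMap_apply]⟩
      | add x y _ _ a b =>
        obtain ⟨P, a, a'⟩ := a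
        obtain ⟨Q, b, b'⟩ := b
        exact ⟨P + Q, a.add b, fun t => by simp [a', b']⟩
      | mul x y _ _ a b =>
        obtain ⟨P, a, a'⟩ := a
        obtain ⟨Q, b, b'⟩ := b
        exact ⟨P * Q, a.mul b, fun t => by simp [a', b']⟩
    obtain ⟨z, hz, h⟩ := exists_mem_frontier_isMaxOn_norm (f := fun z : ℂ => 1 - z * P z)
      (U := Metric.ball 0 1) Metric.isBounded_ball (by simp)
      (Differentiable.diffContOnCl (by fun_prop))
    have h1 := h (subset_closure (Metric.mem_ball_self one_pos))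
    rw [frontier_ball _ one_ne_zero, mem_sphere_zero_iff_norm] at hz
    obtain ⟨t, ht, -⟩ := extend (n := 0) (s := fun _ => z) hz.le (by simp)
    refine ⟨t, ?_⟩
    have e' : z * (starRingEnd ℂ) z = 1 := by rw [mul_conj, normSq_eq_norm_sq, hz]; simp
    rw [e, ht, show (starRingEnd ℂ) z - P z = (starRingEnd ℂ) z * (1 - z * P z) by
      linear_combination (P z) * e', norm_mul, norm_conj, hz, one_mul]
    simpa using h1
  | succ n ih =>
    intro g hg
    have sp : ∀ k, k < n + 1 + 1 → k < n + 1 ∨ k = n + 1 := fun k => Nat.lt_succ_iff_lt_or_eq.1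
    by_cases c : kk n = 2
    · obtain ⟨a, ha, b, hb, rfl⟩ : ∃ a ∈ Rn (n + 1), ∃ b ∈ Rn (n + 1), g = a + b * co (n + 1) := by
        induction hg using Algebra.adjoin_induction with
        | mem x hx =>
          obtain ⟨k, hk, rfl⟩ := hx
          rcases sp k hk with h | rfl
          · exact ⟨_, co_mem h, 0, zero_mem _, by simp⟩
          · exact ⟨0, zero_mem _, 1, one_mem _, by simp⟩
        | algebraMap r => exact ⟨_, algebraMap_mem _ r, 0, zero_mem _, by simp⟩
        | add x y _ _ a b =>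
          obtain ⟨a, h1, a', h2, rfl⟩ := a
          obtain ⟨b, h3, b', h4, rfl⟩ := b
          exact ⟨_, add_mem h1 h3, _, add_mem h2 h4, by ring⟩
        | mul x y _ _ a b =>
          obtain ⟨a, h1, a', h2, rfl⟩ := a
          obtain ⟨b, h3, b', h4, rfl⟩ := b
          exact ⟨_, add_mem (mul_mem h1 h3) (mul_mem (mul_mem h2 h4) (co_mem (ii_lt n))), _,
            add_mem (mul_mem h1 h4) (mul_mem h2 h3), by rw [← co_sq c]; ring⟩
      obtain ⟨t, ht⟩ := ih a ha
      have u : ∀ k < n + 1, Function.update t.1 (n + 1) (-t.1 (n + 1)) k = t.1 k := fun k hk =>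
        Function.update_of_ne hk.ne _ _
      obtain ⟨s, -, hs⟩ := extend (n := n + 1 + 1) (s := Function.update t.1 (n + 1) (-t.1 (n + 1)))
        (by rw [u _ n.succ_pos]; exact t.2.1) fun m hm => by
          have := t.2.2 m
          unfold Cn at this ⊢
          rcases sp _ hm with h | h
          · rwa [u _ h, u _ ((ii_lt m).trans h), u _ ((jj_lt m).trans h)]
          · obtain rfl : m = n := by omega
            rw [if_pos c] at this ⊢
            rwa [u _ (ii_lt m), Function.update_self, neg_sq]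
      have v : ∀ k < n + 1, s.1 k = t.1 k := fun k hk => (hs k (by omega)).trans (u k hk)
      by_contra! hc
      have h1 := hc t
      have h2 := hc s
      have w : co (n + 1) s = -co (n + 1) t := (hs _ (by omega)).trans (Function.update_self ..)
      simp only [ContinuousMap.add_apply, ContinuousMap.mul_apply] at h1 h2
      rw [Rn_dep ha v, Rn_dep hb v, v _ n.succ_pos, w] at h2
      have := norm_add_le ((starRingEnd ℂ) (t.1 0) - (a t + b t * co (n + 1) t))
        ((starRingEnd ℂ) (t.1 0) - (a t + b t * -co (n + 1) t))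
      rw [show (starRingEnd ℂ) (t.1 0) - (a t + b t * co (n + 1) t) + ((starRingEnd ℂ) (t.1 0) -
        (a t + b t * -co (n + 1) t)) = 2 * ((starRingEnd ℂ) (t.1 0) - a t) by ring, norm_mul,
        norm_ofNat] at this
      linarith
    · refine ih g (Algebra.adjoin_le (S := Rn (n + 1)) ?_ hg)
      rintro _ ⟨k, hk, rfl⟩
      rcases sp k hk with h | rfl
      · exact co_mem h
      · rw [co_L c]
        unfold L
        split_ifs
        · exact add_mem (co_mem (ii_lt n)) (co_mem (jj_lt n))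
        · exact mul_mem (co_mem (ii_lt n)) (co_mem (jj_lt n))
        · exact algebraMap_mem _ _

noncomputable def AA : Subalgebra ℂ C(XS, ℂ) where
  carrier := closure (range co)
  add_mem' a b := map_mem_closure₂ continuous_add a b <| by
    rintro _ ⟨i, rfl⟩ _ ⟨j, rfl⟩
    obtain ⟨m, h, rfl, rfl⟩ := code 0 i j
    exact ⟨m + 1, by rw [co_L (by omega), L, if_pos h]⟩
  mul_mem' a b := map_mem_closure₂ continuous_mul a b <| by
    rintro _ ⟨i, rfl⟩ _ ⟨j, rfl⟩
    obtain ⟨m, h, rfl, rfl⟩ := code 1 i j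
    exact ⟨m + 1, by rw [co_L (by omega), L, if_neg (by omega), if_pos h]⟩
  algebraMap_mem' r := map_mem_closure (f := algebraMap ℂ C(XS, ℂ)) (continuous_algebraMap _ _)
    (TopologicalSpace.denseRange_denseSeq ℂ r) <| by
      rintro _ ⟨i, rfl⟩
      obtain ⟨m, h, rfl, -⟩ := code 3 i 0
      exact ⟨m + 1, by rw [co_L (by omega), L, if_neg (by omega), if_neg (by omega)]⟩

lemma co_AA (n : ℕ) : co n ∈ AA := subset_closure ⟨n, rfl⟩

lemma AA_closed : IsClosed (AA : Set C(XS, ℂ)) := isClosed_closure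

lemma AA_app {f : C(XS, ℂ)} (hf : f ∈ AA) {ε : ℝ} (h : 0 < ε) : ∃ n, ‖f - co n‖ < ε := by
  obtain ⟨_, ⟨n, rfl⟩, h⟩ := Metric.mem_closure_iff.1 hf ε h
  exact ⟨n, by rwa [← dist_eq_norm]⟩

lemma AA_sep (x y : XS) (h : x ≠ y) : ∃ f ∈ AA, f x ≠ f y := by
  by_contra! c
  exact h (Subtype.ext (funext fun n => c _ (co_AA n)))

lemma AA_ne : AA ≠ ⊤ := fun h => by
  obtain ⟨n, hn⟩ := AA_app (f := star (co 0)) (h ▸ Algebra.mem_top) one_pos
  obtain ⟨t, ht⟩ := far n _ (co_mem n.lt_succ_self)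
  exact absurd (ht.trans ((star (co 0) - co n).norm_coe_le_norm t)) hn.not_ge

lemma AA_sq : Sq AA := fun f hf ε h => by
  obtain ⟨n, hn⟩ := AA_app hf h
  obtain ⟨m, h, rfl, -⟩ := code 2 n 0
  refine ⟨_, co_AA (m + 1), fun x => ?_⟩
  rw [← ContinuousMap.pow_apply, co_sq h, norm_sub_rev]
  exact ((f - co (ii m)).norm_coe_le_norm x).trans hn.le

lemma AA_nat (φ : AA →ₐ[ℂ] ℂ) : ∃ x : XS, ∀ f : AA, φ f = (f : C(XS, ℂ)) x := by
  haveI : CompleteSpace AA := AA_closed.completeSpace_coe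
  have b : ∀ f : AA, ‖φ f‖ ≤ ‖(f : C(XS, ℂ))‖ := fun f => by
    refine (AlgHom.norm_apply_le_self_mul_norm_one φ f).trans (mul_le_of_le_one_right (norm_nonneg _) ?_)
    exact (ContinuousMap.norm_le _ zero_le_one).2 fun x => by simp
  let x : XS := ⟨fun n => φ ⟨co n, co_AA n⟩, (b _).trans
    ((ContinuousMap.norm_le _ zero_le_one).2 fun x => x.2.1), fun m => by
      unfold Cn
      split_ifs with c
      · rw [← map_pow]; congr 1; exact Subtype.ext (co_sq c)
      · rw [← L_map]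
        exact congrArg φ (Subtype.ext
          ((co_L c).trans (L_map m AA.val ⟨_, co_AA _⟩ ⟨_, co_AA _⟩).symm))⟩
  refine ⟨x, fun f => eq_of_forall_dist_le fun ε h => ?_⟩
  obtain ⟨n, hn⟩ := AA_app f.2 (half_pos h)
  have h1 := b (f - ⟨co n, co_AA n⟩)
  have h2 := (f.1 - co n).norm_coe_le_norm x
  rw [map_sub] at h1
  rw [dist_eq_norm]
  refine (norm_sub_le_norm_sub_add_norm_sub _ (φ ⟨co n, co_AA n⟩) _).trans ?_
  rw [norm_sub_rev (φ ⟨co n, co_AA n⟩)]
  exact (add_le_add (h1.trans hn.le) (h2.trans hn.le)).trans_eq (add_halves ε)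

lemma no_circle (γ : C(Circle, XS)) (h : Function.Injective γ) : False :=
  circ (B := AA.map (γ.compRightAlgHom ℂ ℂ)) (by
    rintro _ ⟨f, hf, rfl⟩ ε h
    obtain ⟨r, hr, e⟩ := AA_sq f hf ε h
    exact ⟨_, ⟨r, hr, rfl⟩, fun x => e (γ x)⟩) fun x y hxy => by
      obtain ⟨f, hf, e⟩ := AA_sep _ _ (h.ne hxy)
      exact ⟨_, ⟨f, hf, rfl⟩, e⟩

end Pool.Agent.H.MP_e19c20_an
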